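import Pool.Agent.FS.EveryN.Main

open Pool.Agent.Lib.MP_7939ee_co

/-- For every number `n ≥ 4` of agents some instance has no `α`-GMMS allocation with `α > 20/21`. -/
theorem Pool.Agent.Variants.MP_7939ee_co.EveryNOld.result (n : ℕ) (hn : 4 ≤ n) :
    ∃ (m : ℕ) (v : Fin n → Fin m → ℝ), (∀ i g, 0 ≤ v i g) ∧
      ∀ α : ℝ, 20 / 21 < α → ∀ A : Fin m → Fin n, ¬ IsGMMS α v A := by
  obtain ⟨K, rfl⟩ := Nat.exists_eq_add_of_le hn
  exact ⟨11 + K, fun i g => (Pool.Agent.FS.EveryN.W K i g : ℝ), fun _ _ => Nat.cast_nonneg _,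
    fun α hα A hA => Pool.Agent.FS.EveryN.main K α (by exact_mod_cast hα) A hA⟩
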